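import Pool.Agent.helper78.SZ.T7

/-!
# Non-monic Schinzel-Zassenhaus problem: no power of `q n` gives a lower bound

For every natural number `A` and every real `c > 0` there is `n₀` such that for every `n ≥ n₀` there are an irreducible `P ∈ ℤ[X]` of degree `n`
with leading coefficient `q ≥ 1` and a real number `1 < β ≤ 1 + c / (q n) ^ A` such that `β` is a root of `P` and the only complex root of `P` of
modulus greater than `1`.  For `A = 1` this is the negative answer to the question of Chowla and Blanksby.

Construction: `P = p (X - 1) X ^ r G ^ m - 1`, where `G` is a product of `2 (A + 1)` blocks `2 X ^ d + b (1 + X + ... + X ^ d)` with consecutive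
exponents `d`: outside the open unit disc `|G| ≥ 1`, but `G(1)` is larger than `2 lc(G) ^ A`; `p` is a large prime (Eisenstein for the reversed
polynomial).
-/

set_option autoImplicit false

open Polynomial

namespace Pool.Agent.Results.MP_daf011_nt.NoPowerBound

theorem result :
    ∀ (A : ℕ) (c : ℝ), 0 < c → ∃ n₀ : ℕ, ∀ n ≥ n₀, ∃ (P : ℤ[X]) (β : ℝ),
      Irreducible P ∧ P.natDegree = n ∧ 0 < P.leadingCoeff ∧
      1 < β ∧ β ≤ 1 + c / ((P.leadingCoeff : ℝ) * (n : ℝ)) ^ A ∧
      ∀ z : ℂ, (aeval z P = 0 ∧ 1 < ‖z‖) ↔ z = (β : ℂ) :=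
  fun A c hc => Pool.Agent.H78SZ.noPow A c hc

end Pool.Agent.Results.MP_daf011_nt.NoPowerBound
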